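import Pool.Agent.H90.SPW.Targets

/-!
# E2: number of amplified edges in a bridge (MP_81fcf0_co)
-/

set_option autoImplicit false

open Finset
open scoped BigOperators Classical

namespace Pool.Agent.H60.SPW.E2
open Pool.Agent.H90.SPW

variable {X E Y : Type} [Fintype X] [Fintype E]

theorem sub_sum (c : Ch X E Y) (z : X) (f : E → ℝ) :
    ∑ e : {e // c.tgt e = z}, f e = ∑ e, if c.tgt e = z then f e else 0 := by
  rw [← Finset.sum_filter]
  exact (Finset.sum_subtype (univ.filter fun e => c.tgt e = z) (by simp) f).symm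

theorem step [Fintype Y] (hLSI : T_LSI) (c : Ch X E Y) (Lam : ℝ) (hL : Real.exp 1 ≤ Lam) (t : ℕ)
    (x z : X) :
    (Real.log Lam - 1) * ∑ y, (if c.Amp Lam t x z y then c.inA t x z y else 0) ≤
      ∑ e, if c.tgt e = z then c.wt e * c.P t x (c.src e) *
        (Real.log (c.P t x (c.src e)) - Real.log (c.P (t + 1) x z)) else 0 := by
  have h := hLSI {e // c.tgt e = z} Y (fun e => c.lt e) (fun e => c.wt e)
    (fun e => c.P t x (c.src e)) Lam (fun e => c.wt_nonneg e) (fun e => c.P_nonneg _ _ _)
    (by rw [sub_sum c z c.wt]; exact c.in_le z) hL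
  have e1 : ∀ y, ∑ e : {e // c.tgt e = z}, (if c.lt e = some y then c.wt e else 0) =
      c.inW z y := fun y => sub_sum c z (fun e => if c.lt e = some y then c.wt e else 0)
  have e2 : ∑ e : {e // c.tgt e = z}, c.wt e * c.P t x (c.src e) = c.P (t + 1) x z := by
    rw [sub_sum c z (fun e => c.wt e * c.P t x (c.src e)), c.P_succ]
    refine sum_congr rfl fun e _ => ?_
    split_ifs
    · ring
    · rfl
  have e3 : ∀ y, ∑ e : {e // c.tgt e = z},
      (if c.lt e = some y then c.wt e * c.P t x (c.src e) else 0) = c.inA t x z y := by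
    intro y
    rw [sub_sum c z (fun e => if c.lt e = some y then c.wt e * c.P t x (c.src e) else 0)]
    unfold Ch.inA Ch.use
    refine sum_congr rfl fun e _ => ?_
    split_ifs
    · ring
    · rw [mul_zero]
    · rfl
  simp only [e1, e2, e3] at h
  refine le_trans (le_of_eq ?_) (h.trans (le_of_eq ?_))
  · refine congrArg _ (sum_congr rfl fun y _ => ?_)
    by_cases hA : c.Amp Lam t x z y
    · rw [if_pos hA, if_pos]
      exact hA
    · rw [if_neg hA, if_neg]
      exact hA
  · exact sub_sum c z (fun e => c.wt e * c.P t x (c.src e) *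
        (Real.log (c.P t x (c.src e)) - Real.log (c.P (t + 1) x z)))

theorem fib (c : Ch X E Y) (F : E → ℝ) :
    ∑ e, F e = ∑ z, ∑ e, if c.tgt e = z then F e else 0 := by
  rw [sum_comm]
  refine sum_congr rfl fun e _ => ?_
  simp

theorem pf_E2 (hLSI : T_LSI) : T_E2 := by
  intro X E Y _ _ _ c Lam hL h x x'
  set Φ : ℕ → ℝ := fun t => ∑ z, c.P t x z * c.P (h - t) z x' * Real.log (c.P t x z) with hΦ
  have h0 : Φ 0 = 0 := by
    rw [hΦ]
    refine sum_eq_zero fun z _ => ?_
    rw [c.P_zero]
    split_ifs
    · rw [Real.log_one, mul_zero]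
    · rw [zero_mul, zero_mul]
  have hh : Φ h = c.P h x x' * Real.log (c.P h x x') := by
    rw [hΦ]
    simp only [Nat.sub_self, c.P_zero]
    rw [sum_eq_single x']
    · rw [if_pos rfl, mul_one]
    · intro z _ hz
      rw [if_neg hz, mul_zero, zero_mul]
    · intro hx
      exact absurd (mem_univ _) hx
  have hstep : ∀ t ∈ range h, (Real.log Lam - 1) * ∑ y, ∑ e, (if c.Amp Lam t x (c.tgt e) y then
      c.P t x (c.src e) * c.use y e * c.P (h - 1 - t) (c.tgt e) x' else 0) ≤ Φ t - Φ (t + 1) := by
    intro t ht
    rw [mem_range] at ht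
    have a1 : Φ t = ∑ e, c.P t x (c.src e) * Real.log (c.P t x (c.src e)) * c.wt e *
        c.P (h - 1 - t) (c.tgt e) x' := by
      have h1 : h - t = (h - 1 - t) + 1 := by omega
      rw [hΦ]
      simp only
      rw [h1]
      simp only [c.P_succ' (h - 1 - t), mul_sum, sum_mul]
      rw [sum_comm]
      refine sum_congr rfl fun e _ => ?_
      rw [sum_eq_single (c.src e)]
      · rw [if_pos rfl]
        ring
      · intro z _ hz
        rw [if_neg (Ne.symm hz), mul_zero, zero_mul]
      · intro hx
        exact absurd (mem_univ _) hx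
    have a2 : Φ (t + 1) = ∑ e, c.P t x (c.src e) * Real.log (c.P (t + 1) x (c.tgt e)) * c.wt e *
        c.P (h - 1 - t) (c.tgt e) x' := by
      have h1 : h - (t + 1) = h - 1 - t := by omega
      have h2 : ∀ z, c.P (t + 1) x z * c.P (h - 1 - t) z x' * Real.log (c.P (t + 1) x z) =
          ∑ e, (if c.tgt e = z then c.P t x (c.src e) * c.wt e * (c.P (h - 1 - t) z x' *
            Real.log (c.P (t + 1) x z)) else 0) := by
        intro z
        nth_rw 1 [c.P_succ]
        rw [sum_mul, sum_mul]
        refine sum_congr rfl fun e _ => ?_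
        split_ifs
        · ring
        · ring
      rw [hΦ]
      simp only
      rw [h1]
      simp only [h2]
      rw [sum_comm]
      refine sum_congr rfl fun e _ => ?_
      rw [sum_eq_single (c.tgt e)]
      · rw [if_pos rfl]
        ring
      · intro z _ hz
        rw [if_neg (Ne.symm hz)]
      · intro hx
        exact absurd (mem_univ _) hx
    have a3 : Φ t - Φ (t + 1) = ∑ z, c.P (h - 1 - t) z x' * ∑ e, (if c.tgt e = z then
        c.wt e * c.P t x (c.src e) *
        (Real.log (c.P t x (c.src e)) - Real.log (c.P (t + 1) x z)) else 0) := by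
      rw [a1, a2, ← sum_sub_distrib, fib c]
      refine sum_congr rfl fun z _ => ?_
      rw [mul_sum]
      refine sum_congr rfl fun e _ => ?_
      split_ifs with he
      · rw [he]
        ring
      · rw [mul_zero]
    have a4 : ∑ y, ∑ e, (if c.Amp Lam t x (c.tgt e) y then
        c.P t x (c.src e) * c.use y e * c.P (h - 1 - t) (c.tgt e) x' else 0) =
        ∑ z, c.P (h - 1 - t) z x' * ∑ y, (if c.Amp Lam t x z y then c.inA t x z y else 0) := by
      simp only [mul_sum]
      rw [sum_comm (s := (univ : Finset X))]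
      refine sum_congr rfl fun y _ => ?_
      rw [fib c]
      refine sum_congr rfl fun z _ => ?_
      by_cases hA : c.Amp Lam t x z y
      · rw [if_pos hA]
        unfold Ch.inA
        rw [mul_sum]
        refine sum_congr rfl fun e _ => ?_
        by_cases he : c.tgt e = z
        · rw [if_pos he, if_pos he, he, if_pos hA]
          ring
        · rw [if_neg he, if_neg he, mul_zero]
      · rw [if_neg hA, mul_zero]
        refine sum_eq_zero fun e _ => ?_
        by_cases he : c.tgt e = z
        · rw [if_pos he, he, if_neg hA]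
        · rw [if_neg he]
    rw [a3, a4, mul_sum]
    refine sum_le_sum fun z _ => ?_
    have h1 := mul_le_mul_of_nonneg_left (step hLSI c Lam hL t x z)
      (c.P_nonneg (h - 1 - t) z x')
    linarith
  have hsum := sum_le_sum hstep
  rw [sum_range_sub', h0, hh] at hsum
  have e : (Real.log Lam - 1) * ∑ y, c.OccA Lam h x x' y = ∑ t ∈ range h,
      (Real.log Lam - 1) * ∑ y, ∑ e, (if c.Amp Lam t x (c.tgt e) y then
      c.P t x (c.src e) * c.use y e * c.P (h - 1 - t) (c.tgt e) x' else 0) := by
    rw [← mul_sum]
    congr 1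
    unfold Ch.OccA
    rw [sum_comm]
  rw [e]
  linarith

end Pool.Agent.H60.SPW.E2
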